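import Pool.Agent.H24.UG.T9
import Pool.Agent.H66.AG.CTX

/-!
UNIFORM LOCAL GAP (`MP_c59857_nt`), row UCT: the data.
-/

set_option autoImplicit false

open MeasureTheory ProbabilityTheory Filter Topology Finset
open scoped Nat ENNReal

namespace Pool.Agent.H38.UG

open Pool.Agent.H24.UG
open Pool.Agent.H24.MR (lam)
open Pool.Agent.H24.T2 (Pset)
open Pool.Agent.H67.AG (avgP ul Inv κ₀)
open Pool.Agent.H80.AG (sg)
open Pool.Agent.H66.AG (ul_le)

/-- a limit along an ultrafilter of a sequence in `[0, 1]`, lower bound -/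
theorem ul_ge (U : Ultrafilter ℕ) (f : ℕ → ℝ) (c : ℝ) (h0 : ∀ n, 0 ≤ f n) (h1 : ∀ n, f n ≤ 1)
    (hc : ∀ᶠ n in (U : Filter ℕ), c ≤ f n) : c ≤ ul U f := by
  have hcp : IsCompact (Set.Icc (0 : ℝ) 1) := isCompact_Icc
  have hle : ((U.map f : Ultrafilter ℝ) : Filter ℝ) ≤ 𝓟 (Set.Icc (0 : ℝ) 1) := by
    rw [le_principal_iff, Ultrafilter.mem_coe, Ultrafilter.mem_map]
    apply Filter.univ_mem'
    intro k
    exact ⟨h0 k, h1 k⟩
  obtain ⟨x, -, hx⟩ := hcp.ultrafilter_le_nhds _ hle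
  have ht : Tendsto f (U : Filter ℕ) (𝓝 x) := hx
  have e : ul U f = x := ht.limUnder_eq
  rw [e]
  exact ge_of_tendsto ht hc

theorem sgn_sg3 (a : Fin 3) : sg3 a = 0 ∨ sg3 a = 1 ∨ sg3 a = -1 := by
  unfold sg3
  split_ifs
  · exact Or.inl rfl
  · exact Or.inr (Or.inl rfl)
  · exact Or.inr (Or.inr rfl)

theorem abs_sg3 (a : Fin 3) : |sg3 a| = if a = 0 then 0 else 1 := by
  unfold sg3
  split_ifs <;> simp

variable (Q : ℕ) [NeZero Q]

theorem shM_iter (n : ℕ) (x : Om Q) : ((shM Q)^[n] x).2.1 = x.2.1 + (n : ZMod Q) := by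
  induction n generalizing x with
  | zero => simp
  | succ n ih =>
    rw [Function.iterate_succ_apply, ih]
    have : (shM Q x).2.1 = x.2.1 + 1 := rfl
    rw [this]
    push_cast
    ring

omit [NeZero Q] in
theorem measYc (c : ZMod Q) : MeasurableSet {x : Om Q | x.2.1 = c} := by
  have h : Measurable fun x : Om Q => x.2.1 := measurable_fst.comp measurable_snd
  exact h (measurableSet_singleton c)

theorem nuYc (ν : Measure (Om Q)) [IsProbabilityMeasure ν] (h : MeasurePreserving (shM Q) ν ν)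
    (c : ZMod Q) : ν.real {x : Om Q | x.2.1 = c} = 1 / Q := by
  have h1 : ∀ c : ZMod Q, ν.real {x : Om Q | x.2.1 = c + 1} = ν.real {x : Om Q | x.2.1 = c} := by
    intro c
    rw [← h.measureReal_preimage (measYc Q (c + 1)).nullMeasurableSet]
    congr 1
    ext x
    have : (shM Q x).2.1 = x.2.1 + 1 := rfl
    simp only [Set.mem_preimage, Set.mem_ofPred_eq, this]
    exact add_left_inj 1
  have h2 : ∀ n : ℕ, ν.real {x : Om Q | x.2.1 = (n : ZMod Q)} =
      ν.real {x : Om Q | x.2.1 = 0} := by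
    intro n
    induction n with
    | zero => simp
    | succ n ih =>
      rw [← ih, ← h1 (n : ZMod Q)]
      push_cast
      rfl
  have h3 : ∀ c : ZMod Q, ν.real {x : Om Q | x.2.1 = c} = ν.real {x : Om Q | x.2.1 = 0} := by
    intro c
    have := h2 c.val
    rwa [ZMod.natCast_zmod_val] at this
  have h4 : ∑ c : ZMod Q, ν.real {x : Om Q | x.2.1 = c} = 1 := by
    have := sum_measureReal_preimage_singleton (μ := ν) (Finset.univ : Finset (ZMod Q))
      (f := fun x : Om Q => x.2.1) (fun y _ => measYc Q y)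
    have e : (fun x : Om Q => x.2.1) ⁻¹' ((Finset.univ : Finset (ZMod Q)) : Set (ZMod Q)) =
        Set.univ := by simp
    rw [e, probReal_univ] at this
    exact this
  simp only [h3] at h4
  rw [h3 c]
  rw [sum_const, card_univ, ZMod.card, nsmul_eq_mul] at h4
  have hQ : (Q : ℝ) ≠ 0 := by exact_mod_cast NeZero.ne Q
  field_simp
  linarith

/-- labels which do not change are constant -/
theorem cst {α : Type} [Nonempty α] [MeasurableSpace α] [MeasurableSpace.CountablySeparated α]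
    (ν : Measure (Om Q)) (herg : Ergodic (shM Q) ν) (g : Lb → α) (hg : Measurable g)
    (h : ν {ω | g (ω.2.2 0) ≠ g (ω.2.2 1)} = 0) : ∃ a, ∀ᵐ ω ∂ν, g (ω.2.2 0) = a := by
  have hm : Measurable fun ω : Om Q => g (ω.2.2 0) :=
    hg.comp ((measurable_pi_apply 0).comp (measurable_snd.comp measurable_snd))
  obtain ⟨a, ha⟩ := herg.ae_eq_const_of_ae_eq_comp₀ (g := fun ω : Om Q => g (ω.2.2 0))
    hm.nullMeasurable (by
      have h1 : ∀ᵐ ω ∂ν, g (ω.2.2 0) = g (ω.2.2 1) := by
        rw [ae_iff]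
        exact h
      filter_upwards [h1] with ω hω
      have h2 : (shM Q ω).2.2 0 = ω.2.2 1 := by
        change ω.2.2 (0 + 1) = ω.2.2 1
        rw [zero_add]
      change g ((shM Q ω).2.2 0) = g (ω.2.2 0)
      rw [h2, hω])
  exact ⟨a, ha⟩

/-- UCT -/
theorem pf_UCT : T_UCT := by
  classical
  intro Q k _ β c δ η m ν hQe hβ hδ hδ1 hη hηκ hν herg hmr hfc hsc hmi hfr
  have hQ0 : 0 < Q := Nat.pos_of_ne_zero (NeZero.ne Q)
  have hQr : (0 : ℝ) < Q := by exact_mod_cast hQ0
  have hY := nuYc Q ν herg.toMeasurePreserving c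
  -- the signs
  have hsgn : ∀ p : ℕ, ∃ a : Fin 3, p.Prime → p ≡ 1 [MOD Q] →
      ∀ᵐ ω ∂ν, (ω.2.2 0).2 p = a := by
    intro p
    by_cases h : p.Prime ∧ p ≡ 1 [MOD Q]
    · obtain ⟨a, ha⟩ := cst Q ν herg (fun l : Lb => l.2 p)
        ((measurable_pi_apply p).comp measurable_snd) (hsc p h.1 h.2)
      exact ⟨a, fun _ _ => ha⟩
    · exact ⟨0, fun h1 h2 => absurd ⟨h1, h2⟩ h⟩
  choose a ha using hsgn
  let σ : ℕ → ℝ := fun p => if p.Prime ∧ p ≡ 1 [MOD Q] then sg3 (a p) else 0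
  have hσ : ∀ p : ℕ, p.Prime → p ≡ 1 [MOD Q] → σ p = sg3 (a p) := fun p h1 h2 =>
    if_pos ⟨h1, h2⟩
  have hσv : Sgn σ := by
    intro p
    by_cases h : p.Prime ∧ p ≡ 1 [MOD Q]
    · rw [hσ p h.1 h.2]
      exact sgn_sg3 _
    · exact Or.inl (if_neg h)
  have hσ1 : ∀ p, |σ p| ≤ 1 := by
    intro p
    rcases hσv p with h | h | h <;> rw [h] <;> simp
  have hPs : ∀ w j p, p ∈ Pset (Q * w !) j → p.Prime ∧ p ≡ 1 [MOD Q] := by
    intro w j p hp
    unfold Pset at hp
    rw [mem_filter] at hp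
    exact ⟨hp.2.1, hp.2.2.of_mul_right _⟩
  -- densities
  have hSN : ∀ p : ℕ, p.Prime → p ≡ 1 [MOD Q] → ν.real (SN Q p) ≤ |σ p| := by
    intro p h1 h2
    rw [hσ p h1 h2, abs_sg3]
    by_cases h0 : a p = 0
    · rw [if_pos h0]
      have h3 : ν (SN Q p) = 0 := by
        have h4 := ha p h1 h2
        rw [h0, ae_iff] at h4
        exact h4
      rw [Measure.real, h3]
      simp
    · rw [if_neg h0]
      exact measureReal_le_one
  let B : ℕ → Set (Om Q) := fun p => {x | x.2.1 = c} ∩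
    {x | ∏ i, DD Q ((shM Q)^[p * β i] x) ≠ σ p}
  have hRS : ∀ p : ℕ, p.Prime → p ≡ 1 [MOD Q] → ∀ E : Set (Om Q), (∀ᵐ ω ∂ν, ω ∈ E) →
      |σ p| * ν.real (B p) ≤ ν.real (E ∩ RS Q β c p) := by
    intro p h1 h2 E hE
    by_cases h0 : a p = 0
    · rw [hσ p h1 h2, abs_sg3, if_pos h0, zero_mul]
      exact measureReal_nonneg
    · have h3 : |σ p| = 1 := by rw [hσ p h1 h2, abs_sg3, if_neg h0]
      rw [h3, one_mul]
      refine ENNReal.toReal_mono (measure_ne_top _ _) (measure_mono_ae ?_)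
      filter_upwards [hE, ha p h1 h2] with ω hω hω'
      rintro ⟨h4, h5⟩
      refine ⟨hω, ?_, h4, ?_⟩
      · rw [hω']
        exact h0
      · rw [hω', ← hσ p h1 h2]
        exact h5
  -- the ultrafilter of the w
  let G : ℕ → ℕ → Prop := fun w j => (Pset (Q * w !) j).Nonempty ∧
    δ / 4 * (Pset (Q * w !) j).card ≤ ∑ p ∈ Pset (Q * w !) j, |σ p| ∧
    ∑ p ∈ Pset (Q * w !) j, |σ p| * ν.real (B p) ≤ 48 * η / (δ * Q) * (Pset (Q * w !) j).card
  have hG : ∃ᶠ w in atTop, ∃ᶠ i in atTop, G w (m w i) := by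
    refine hfr.mono fun w hw => hw.mono fun i hi => ?_
    obtain ⟨h1, h2⟩ := hi
    have hne := (hmi w i).2
    have hcard : (0 : ℝ) < (Pset (Q * w !) (m w i)).card := by
      exact_mod_cast card_pos.2 hne
    obtain ⟨b, hb⟩ := cst Q ν herg (fun l : Lb => l.1 (w, i))
      ((measurable_pi_apply (w, i)).comp measurable_fst) (hfc w i)
    have hbt : b = true := by
      by_contra hb0
      have hb1 : b = false := by simpa using hb0
      have h3 : ν (FL Q w i) = 0 := by
        have h4 : ∀ᵐ ω ∂ν, ¬ ω ∈ FL Q w i := by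
          filter_upwards [hb] with ω hω
          intro h5
          have h6 : (ω.2.2 0).1 (w, i) = true := h5
          rw [hω, hb1] at h6
          exact absurd h6 (by decide)
        rw [ae_iff] at h4
        simpa using h4
      have h5 : ∑ p ∈ Pset (Q * w !) (m w i), ν.real (FL Q w i ∩ SN Q p) = 0 := by
        refine sum_eq_zero fun p _ => ?_
        have h6 : ν (FL Q w i ∩ SN Q p) = 0 :=
          measure_mono_null Set.inter_subset_left h3
        rw [Measure.real, h6]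
        simp
      rw [h5] at h1
      have h7 : 0 < δ / 4 * ((Pset (Q * w !) (m w i)).card : ℝ) := by positivity
      linarith
    have hE : ∀ᵐ ω ∂ν, ω ∈ FL Q w i := by
      filter_upwards [hb] with ω hω
      change (ω.2.2 0).1 (w, i) = true
      rw [hω, hbt]
    refine ⟨hne, h1.trans (sum_le_sum fun p hp => ?_), le_trans (sum_le_sum fun p hp => ?_) h2⟩
    · obtain ⟨h3, h4⟩ := hPs _ _ _ hp
      exact (measureReal_mono Set.inter_subset_right).trans (hSN p h3 h4)
    · obtain ⟨h3, h4⟩ := hPs _ _ _ hp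
      exact hRS p h3 h4 _ hE
  let S : Set ℕ := {w | ∃ᶠ i in (atTop : Filter ℕ), G w (m w i)}
  have hne : NeBot ((atTop : Filter ℕ) ⊓ 𝓟 S) := frequently_iff_neBot.1 hG
  have hV1 : ((Ultrafilter.of ((atTop : Filter ℕ) ⊓ 𝓟 S) : Ultrafilter ℕ) : Filter ℕ) ≤ atTop :=
    (Ultrafilter.of_le _).trans inf_le_left
  have hV2 : ((Ultrafilter.of ((atTop : Filter ℕ) ⊓ 𝓟 S) : Ultrafilter ℕ) : Filter ℕ) ≤ 𝓟 S :=
    (Ultrafilter.of_le _).trans inf_le_right
  -- the ultrafilters of the scales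
  have hU : ∀ w, ∃ U : Ultrafilter ℕ, (U : Filter ℕ) ≤ atTop ∧ (w ∈ S →
      ∀ᶠ j in (U : Filter ℕ), G w j) := by
    intro w
    by_cases hw : w ∈ S
    · have ht : Tendsto (m w) atTop atTop := tendsto_atTop_mono (fun i => (hmi w i).1) tendsto_id
      have hf : ∃ᶠ j in (atTop : Filter ℕ), G w j := ht.frequently hw
      have hne' := frequently_iff_neBot.1 hf
      refine ⟨Ultrafilter.of ((atTop : Filter ℕ) ⊓ 𝓟 {j | G w j}),
        (Ultrafilter.of_le _).trans inf_le_left, fun _ => ?_⟩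
      exact le_principal_iff.1 ((Ultrafilter.of_le _).trans inf_le_right)
    · exact ⟨hyperfilter ℕ, by rw [← Nat.cofinite_eq_atTop]; exact hyperfilter_le_cofinite,
        fun h => absurd h hw⟩
  choose U hU1 hU2 using hU
  have hDm : Measurable (DD Q) := by
    have h1 : Measurable fun ω : Om Q => ω.1 0 := (measurable_pi_apply 0).comp measurable_fst
    exact (measurable_from_top (f := sg)).comp h1
  have hsg : ∀ b, sg b = 1 ∨ sg b = -1 := by
    intro b
    cases b <;> simp [sg]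
  have hS : ∀ᶠ w in ((Ultrafilter.of ((atTop : Filter ℕ) ⊓ 𝓟 S) : Ultrafilter ℕ) : Filter ℕ),
      w ∈ S := le_principal_iff.1 hV2
  refine ⟨{
    X := Om Q
    μ := ν
    T := shM Q
    erg := herg
    D := DD Q
    Dm := hDm
    Dv := fun x => hsg _
    mr := hmr
    k := k + 1
    kpos := Nat.succ_pos k
    Q := Q
    Qpos := hQ0
    Qev := hQe
    β := β
    inj := hβ
    σ := σ
    σv := hσv
    γ := δ / 4
    γ0 := by positivity
    γ1 := by linarith
    Y := {x | x.2.1 = c}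
    Ym := measYc Q c
    Yinv := ?_
    Ypos := by rw [hY]; positivity
    V := Ultrafilter.of ((atTop : Filter ℕ) ⊓ 𝓟 S)
    hV := hV1
    U := U
    hU := hU1
    gam := ?_
    rel := ?_ }⟩
  · ext x
    rw [Set.mem_preimage, Set.mem_ofPred_eq, Set.mem_ofPred_eq, shM_iter, ZMod.natCast_self,
      add_zero]
  · filter_upwards [hS] with w hw
    unfold dn
    refine ul_ge _ _ _ (fun j => ?_) (fun j => ?_) ?_
    · unfold avgP
      exact div_nonneg (sum_nonneg fun _ _ => abs_nonneg _) (Nat.cast_nonneg _)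
    · unfold avgP
      refine div_le_one_of_le₀ ?_ (Nat.cast_nonneg _)
      calc ∑ p ∈ Pset (Q * w !) j, |σ p| ≤ ∑ p ∈ Pset (Q * w !) j, (1 : ℝ) :=
            sum_le_sum fun p _ => hσ1 p
        _ = _ := by rw [sum_const, nsmul_eq_mul, mul_one]
    · filter_upwards [hU2 w hw] with j hj
      unfold avgP
      have hcard : (0 : ℝ) < (Pset (Q * w !) j).card := by exact_mod_cast card_pos.2 hj.1
      rw [le_div_iff₀ hcard]
      exact hj.2.1
  · filter_upwards [hS] with w hw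
    refine ul_le _ _ _ (fun j => ?_) (fun j => ?_) ?_
    · unfold avgP
      exact div_nonneg (sum_nonneg fun _ _ => mul_nonneg (abs_nonneg _) measureReal_nonneg)
        (Nat.cast_nonneg _)
    · unfold avgP
      refine div_le_one_of_le₀ ?_ (Nat.cast_nonneg _)
      calc ∑ p ∈ Pset (Q * w !) j, |σ p| * ν.real ({x : Om Q | x.2.1 = c} ∩
            {x | ∏ i, DD Q ((shM Q)^[p * β i] x) ≠ σ p})
          ≤ ∑ p ∈ Pset (Q * w !) j, (1 : ℝ) :=
            sum_le_sum fun p _ => mul_le_one₀ (hσ1 p) measureReal_nonneg measureReal_le_one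
        _ = _ := by rw [sum_const, nsmul_eq_mul, mul_one]
    · filter_upwards [hU2 w hw] with j hj
      unfold avgP
      have h1 : ∑ p ∈ Pset (Q * w !) j, |σ p| * ν.real ({x : Om Q | x.2.1 = c} ∩
            {x | ∏ i, DD Q ((shM Q)^[p * β i] x) ≠ σ p}) ≤
          48 * η / (δ * Q) * (Pset (Q * w !) j).card := hj.2.2
      have h2 : 48 * η / (δ * Q) ≤ κ₀ * (δ / 4) ^ 3 * ν.real {x : Om Q | x.2.1 = c} := by
        rw [hY, div_le_iff₀ (by positivity)]
        have e : κ₀ * (δ / 4) ^ 3 * (1 / (Q : ℝ)) * (δ * Q) = κ₀ * δ ^ 4 / 64 := by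
          field_simp
          ring
        rw [e]
        linarith
      have h3 : (0 : ℝ) ≤ κ₀ * (δ / 4) ^ 3 * ν.real {x : Om Q | x.2.1 = c} := by
        have : (0 : ℝ) ≤ κ₀ := by unfold κ₀; norm_num
        positivity
      refine div_le_of_le_mul₀ (Nat.cast_nonneg _) h3 ?_
      exact h1.trans (mul_le_mul_of_nonneg_right h2 (Nat.cast_nonneg _))

end Pool.Agent.H38.UG
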